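import Pool.Agent.Lib.MP_79396e_al.Final

/-!
# The equality case of the Patterson-Sullivan intersection function on outer space

For every `N ≥ 2` and all `T, S` in `cv_N` of volume one, with Patterson-Sullivan currents
`μ_T`, `μ_S` scaled so that `⟨T, μ_T⟩ = ⟨S, μ_S⟩ = 1`, the value
`I(T, S) = ⟨S, μ_T⟩ ⟨T, μ_S⟩` is one if and only if `T = S`, that is, if and only if there is an
`F_N`-equivariant isomorphism of the two trees that preserves the lengths of the edges.

A point of outer space is given by its tree with the usual simplicial structure, in which
every vertex has valence at least three (`OuterTree.IsReduced`).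

The definitions are in `Pool.Agent.Lib.MP_fee052_al.Defs` (trees, boundary, intersection form,
Patterson-Sullivan currents) and in `Pool.Agent.Lib.MP_79396e_al` (`IsReduced`, `volume`,
`Equivalent`).
-/

open MeasureTheory

namespace Pool.Agent.Results.MP_79396e_al.EqualityCase

open Pool.Agent.OuterSpace

theorem result (N : ℕ) (hN : 2 ≤ N) (T S : OuterTree N) (hTr : T.IsReduced) (hSr : S.IsReduced)
    (hTv : T.volume = 1) (hSv : S.volume = 1)
    (μT μS : Measure (Boundary N × Boundary N))
    (hT : T.IsPSCurrent μT) (hS : S.IsPSCurrent μS) :
    (S.pairing μT).toReal * (T.pairing μS).toReal = 1 ↔ T.Equivalent S :=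
  OuterTree.intersection_eq_one_iff hN hTr hSr hTv hSv hT hS

end Pool.Agent.Results.MP_79396e_al.EqualityCase
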